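import Mathlib
import Pool.Agent.H.MP_8720f8_lc.C

namespace Pool.Agent.Results.MP_b13462_lc.Undec

open Pool.Agent.H.MP_8720f8_lc

/-- terms of the language of Lie rings -/
inductive Tm : Type
  | var (i : ℕ) : Tm
  | zero : Tm
  | add (a b : Tm) : Tm
  | neg (a : Tm) : Tm
  | br (a b : Tm) : Tm

/-- value of a term under an assignment -/
def Tm.ev {L : Type} [LieRing L] (g : ℕ → L) : Tm → L
  | .var i => g i
  | .zero => 0
  | .add a b => a.ev g + b.ev g
  | .neg a => -a.ev g
  | .br a b => ⁅a.ev g, b.ev g⁆

/-- a term written in Polish order as a list of numbers -/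
def Tm.enc : Tm → List ℕ
  | .var i => [i + 4]
  | .zero => [0]
  | .add a b => 1 :: (a.enc ++ b.enc)
  | .neg a => 2 :: a.enc
  | .br a b => 3 :: (a.enc ++ b.enc)

/-- the quasi-identity with premises `H` and conclusion `s = t` holds in all finite Lie rings -/
def Holds (H : List (Tm × Tm)) (s t : Tm) : Prop :=
  ∀ (L : Type) [LieRing L] [Finite L] (g : ℕ → L),
    (∀ p ∈ H, p.1.ev g = p.2.ev g) → s.ev g = t.ev g

attribute [local instance 100] LieRing.ofAssociativeRing

theorem result : ¬ ∃ f : List (List ℕ × List ℕ) × List ℕ × List ℕ → Bool, Computable f ∧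
    ∀ (H : List (Tm × Tm)) (s t : Tm),
      f (H.map fun p => (p.1.enc, p.2.enc), s.enc, t.enc) = true ↔ Holds H s t := by
  classical
  obtain ⟨Γ, _, R, k, s, a, z, -, hR, h0, h1⟩ := exists_thue
  obtain ⟨ι, hι⟩ := exists_injective_nat Γ
  have hf : {p : List Γ × List Γ | R p.1 p.2}.Finite :=
    ((List.finite_length_le Γ 4).prod (List.finite_length_le Γ 4)).subset
      fun p hp => (hR _ _ hp).2.2
  have := Fintype.ofFinite Γ
  let T : List Γ → Tm → Tm := fun w y => w.foldl (fun y γ => .br (.var (2 * ι γ + 1)) y) y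
  let H : List (Tm × Tm) := (T k (.var 0), .zero) ::
    (hf.toFinset.toList.map (fun p => (T p.1 (.var 0), T p.2 (.var 0))) ++
    (Finset.univ.toList.map (fun γ => (.br (.var (2 * ι γ + 1)) (.var 0),
      .br (.var (2 * ι γ + 2)) (.var 0))) ++
    Finset.univ.toList.map (fun p : Γ × Γ =>
      (.br (.var (2 * ι p.1 + 1)) (.var (2 * ι p.2 + 2)), .zero))))
  have hH : ∀ P : Tm × Tm → Prop, (∀ p ∈ H, P p) ↔ P (T k (.var 0), .zero) ∧
      (∀ l r, R l r → P (T l (.var 0), T r (.var 0))) ∧
      (∀ γ, P (.br (.var (2 * ι γ + 1)) (.var 0), .br (.var (2 * ι γ + 2)) (.var 0))) ∧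
      ∀ γ δ, P (.br (.var (2 * ι γ + 1)) (.var (2 * ι δ + 2)), .zero) := fun P => by
    simp only [H, List.forall_mem_cons, List.forall_mem_append, List.forall_mem_map,
      Finset.mem_toList, Set.Finite.mem_toFinset, Set.mem_ofPred_eq, Prod.forall,
      Finset.mem_univ, true_imp_iff]
  have eT : ∀ w y, (T w y).enc = w.foldl (fun l γ => 3 :: (2 * ι γ + 1 + 4) :: l) y.enc := by
    intro w
    induction w with
    | nil => exact fun _ => rfl
    | cons γ w ih => exact fun y => ih _
  have p1 : ∀ w : List Γ, Primrec fun l : List ℕ =>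
      w.foldl (fun l γ => 3 :: (2 * ι γ + 1 + 4) :: l) l := by
    intro w
    induction w with
    | nil => exact .id
    | cons γ w ih =>
      exact ih.comp (Primrec.list_cons.comp (.const 3) (Primrec.list_cons.comp (.const _) .id))
  have hA : Primrec fun n => (T (s :: List.replicate n a ++ z) (.var 0)).enc :=
    ((p1 z).comp (Primrec.nat_iterate .id (.const (T [s] (.var 0)).enc)
      ((p1 [a]).comp .snd).to₂)).of_eq fun n => by
        rw [eT (_ ++ _), List.foldl_append]
        congr 1
        induction n with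
        | zero => exact eT _ _
        | succ n ih =>
          rw [id, Function.iterate_succ_apply', List.replicate_succ', ← List.cons_append,
            List.foldl_append]
          exact congrArg (fun l => 3 :: (2 * ι a + 1 + 4) :: l) ih
  rintro ⟨f, hf, h⟩
  refine insep (fun n => f (H.map fun p => (p.1.enc, p.2.enc),
    (T (s :: List.replicate n a ++ z) (.var 0)).enc, Tm.zero.enc))
    (hf.comp ((Primrec.const _).pair (hA.pair (.const _))).to_comp)
    (fun n hn => (h _ _ _).2 fun L _ _ g hg => ?_) fun n hn => ?_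
  · obtain ⟨a1, a2, a3, a4⟩ := (hH fun p => p.1.ev g = p.2.ev g).1 hg
    let t : List Γ → L → L := fun w y => w.foldl (fun y γ => ⁅g (2 * ι γ + 1), y⁆) y
    have e1 : ∀ w y, (T w y).ev g = t w (y.ev g) := by
      intro w
      induction w with
      | nil => exact fun _ => rfl
      | cons γ w ih => exact fun y => ih _
    have e2 : ∀ δ w y, t w ⁅g (2 * ι δ + 2), y⁆ = ⁅g (2 * ι δ + 2), t w y⁆ := by
      intro δ w
      induction w with
      | nil => exact fun _ => rfl
      | cons γ w ih =>
        intro y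
        have : ⁅g (2 * ι γ + 1), ⁅g (2 * ι δ + 2), y⁆⁆ =
            ⁅g (2 * ι δ + 2), ⁅g (2 * ι γ + 1), y⁆⁆ := by
          rw [leibniz_lie, show ⁅g (2 * ι γ + 1), g (2 * ι δ + 2)⁆ = 0 from a4 γ δ]; simp
        simp only [t, List.foldl_cons] at ih ⊢
        rw [this, ih]
    have e3 : ∀ γ w, t (γ :: w) (g 0) = ⁅g (2 * ι γ + 2), t w (g 0)⁆ := fun γ w => by
      rw [← e2, ← show ⁅g (2 * ι γ + 1), g 0⁆ = ⁅g (2 * ι γ + 2), g 0⁆ from a3 γ]; rfl
    have e4 : ∀ w w', t w (g 0) = t w' (g 0) → ∀ p z, t (p ++ w ++ z) (g 0) =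
        t (p ++ w' ++ z) (g 0) := by
      intro w w' e p z
      induction p with
      | nil => simp only [t, List.nil_append, List.foldl_append] at e ⊢; rw [e]
      | cons γ p ih => simp only [List.cons_append, e3, ih]
    have e5 : ∀ w, t w 0 = 0 := by
      intro w
      induction w with
      | nil => rfl
      | cons γ w ih => simpa [t] using ih
    rw [e1]
    refine h0 n hn (fun w => t w (g 0) = 0) (fun p z => ?_) fun l r e p z h => ?_
    · induction p with
      | nil =>
        have : t k (g 0) = 0 := (e1 _ _).symm.trans a1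
        simp only [t, List.nil_append, List.foldl_append] at this e5 ⊢
        rw [this, e5]
      | cons γ p ih => simp only [List.cons_append, e3, ih, lie_zero]
    · exact (e4 l r ((e1 _ _).symm.trans ((a2 l r e).trans (e1 _ _))) p z).trans h
  · obtain ⟨V, _, _, _, m, b1, b2, x, φ, b3⟩ := model1 (h1 n hn)
    rw [← Bool.not_eq_true, h]
    intro hE
    have : Finite (Module.End F V) := Finite.of_injective _ DFunLike.coe_injective
    let g : ℕ → Matrix (Fin 2) (Fin 2) (Module.End F V) := fun j =>
      if j = 0 then !![0, 1; 0, 0] else if j % 2 = 1 then !![Function.extend ι m 0 (j / 2), 0; 0, 0]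
      else !![0, 0; 0, -Function.extend ι m 0 (j / 2 - 1)]
    have g1 : ∀ γ, g (2 * ι γ + 1) = !![m γ, 0; 0, 0] := fun γ => by
      simp only [g]
      rw [if_neg (by omega), if_pos (by omega), show (2 * ι γ + 1) / 2 = ι γ by omega,
        hι.extend_apply]
    have g2 : ∀ γ, g (2 * ι γ + 2) = !![0, 0; 0, -m γ] := fun γ => by
      simp only [g]
      rw [if_neg (by omega), if_neg (by omega), show (2 * ι γ + 2) / 2 - 1 = ι γ by omega,
        hι.extend_apply]
    have e1 : ∀ w y X, y.ev g = !![0, X; 0, 0] → (T w y).ev g = !![0, act m w * X; 0, 0] := by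
      intro w
      induction w with
      | nil => intro y X e; simpa [act, T] using e
      | cons γ w ih =>
        intro y X e
        rw [act, mul_assoc]
        refine ih _ _ ?_
        simp only [Tm.ev, e, g1, Ring.lie_def]
        ext i j : 2
        fin_cases i <;> fin_cases j <;> simp
    have e2 := fun w => e1 w (.var 0) 1 rfl
    have := hE _ g ((hH fun p => p.1.ev g = p.2.ev g).2 ⟨?_, fun l r e => ?_, fun γ => ?_,
      fun γ δ => ?_⟩)
    · rw [e2] at this
      have : act m (s :: List.replicate n a ++ z) = 0 := by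
        simpa [Tm.ev] using congrFun (congrFun this 0) 1
      exact b3 (by rw [this]; simp)
    · simp only [e2, b2, Tm.ev]
      ext i j : 2
      fin_cases i <;> fin_cases j <;> simp
    · simp only [e2, b1 l r e]
    · simp only [Tm.ev, g1, g2, Ring.lie_def, show g 0 = !![0, 1; 0, 0] from rfl]
      ext i j : 2
      fin_cases i <;> fin_cases j <;> simp
    · simp only [Tm.ev, g1, g2, Ring.lie_def]
      ext i j : 2
      fin_cases i <;> fin_cases j <;> simp

end Pool.Agent.Results.MP_b13462_lc.Undec
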